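import Pool.Agent.Q236.CR.Stm3

/-!
# Project CR (helper236), job EQD: two points, independence of primes
-/

set_option autoImplicit false

namespace Pool.Agent.Q14.CR

open Finset Polynomial Pool.Agent.Q236.CR

/-! ### averages along surjective homomorphisms -/

theorem sum_surj {V W : Type} [AddCommGroup V] [Fintype V] [AddCommGroup W] [Fintype W]
    (f : V →+ W) (hf : Function.Surjective f) (g : W → ℝ) :
    (Fintype.card W : ℝ) * ∑ v, g (f v) = Fintype.card V * ∑ w, g w := by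
  classical
  obtain ⟨m, hm⟩ : ∃ m : ℕ, ∀ w, (univ.filter (fun v => f v = w)).card = m :=
    ⟨(univ.filter (fun v => f v = 0)).card, fun w =>
      AddMonoidHom.card_fiber_eq_of_mem_range f (hf w) (hf 0)⟩
  have h1 : ∑ v, g (f v) = m * ∑ w, g w := by
    rw [← Finset.sum_fiberwise_of_maps_to (s := univ) (t := univ) (g := f)
      (fun v _ => mem_univ (f v)), mul_sum]
    refine sum_congr rfl fun w _ => ?_
    rw [sum_congr rfl (fun v hv => by rw [(mem_filter.1 hv).2]), sum_const, nsmul_eq_mul, hm w]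
  have h2 : Fintype.card V = Fintype.card W * m := by
    have h3 := card_eq_sum_card_fiberwise (s := (univ : Finset V)) (t := (univ : Finset W))
      (f := f) (fun v _ => mem_univ (f v))
    rw [sum_congr rfl (fun w _ => hm w), sum_const, smul_eq_mul] at h3
    exact h3
  rw [h1, h2]
  push_cast
  ring

/-! ### one prime -/

section prime

variable {k : ℕ} (s : Fin k → ℕ) (p : ℕ)

/-- evaluation at a residue -/
def ev (x : ZMod p) : ((i : Fin k) → Fin (s i + 2) → ZMod p) →+ (Fin k → ZMod p) where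
  toFun w i := ∑ l, w i l * x ^ (l : ℕ)
  map_zero' := by
    funext i
    simp
  map_add' w w' := by
    funext i
    show ∑ l, (w i l + w' i l) * x ^ (l : ℕ) = ∑ l, w i l * x ^ (l : ℕ) + ∑ l, w' i l * x ^ (l : ℕ)
    rw [← sum_add_distrib]
    exact sum_congr rfl fun l _ => add_mul _ _ _

variable {s p}

theorem ev_two (x : ZMod p) (a b : Fin k → ZMod p) (i : Fin k) :
    ev s p x (fun i => Fin.cons (a i) (Fin.cons (b i) 0)) i = a i + b i * x := by
  show ∑ l : Fin (s i + 1 + 1), (Fin.cons (a i) (Fin.cons (b i) 0) : Fin (s i + 1 + 1) → ZMod p) l *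
    x ^ (l : ℕ) = _
  rw [Fin.sum_univ_succ, Fin.sum_univ_succ]
  simp

open Classical in
/-- some coordinate vanishes -/
noncomputable def hk {k : ℕ} {p : ℕ} (v : Fin k → ZMod p) : ℝ := if ∃ i, v i = 0 then 1 else 0

theorem sum_hk [Fact p.Prime] : ∑ v : Fin k → ZMod p, hk v =
    (Fintype.card (Fin k → ZMod p) : ℝ) * dk k p := by
  classical
  have hp : (p : ℝ) ≠ 0 := Nat.cast_ne_zero.2 (Fact.out : p.Prime).ne_zero
  have h1 : ∀ v : Fin k → ZMod p, hk v = 1 - ∏ i, (if v i = 0 then (0 : ℝ) else 1) := by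
    intro v
    unfold hk
    by_cases h : ∃ i, v i = 0
    · obtain ⟨i, hi⟩ := h
      rw [if_pos ⟨i, hi⟩, prod_eq_zero (mem_univ i) (by rw [if_pos hi]), sub_zero]
    · rw [if_neg h]
      push Not at h
      rw [prod_eq_one (fun i _ => by rw [if_neg (h i)]), sub_self]
  have h2 : ∑ v : Fin k → ZMod p, ∏ i, (if v i = 0 then (0 : ℝ) else 1) = ((p : ℝ) - 1) ^ k := by
    have h3 := Finset.prod_univ_sum (ι := Fin k) (fun _ => (univ : Finset (ZMod p)))
      (fun _ x => if x = 0 then (0 : ℝ) else 1)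
    rw [Fintype.piFinset_univ] at h3
    rw [← h3]
    have h4 : ∑ x : ZMod p, (if x = 0 then (0 : ℝ) else 1) = (p : ℝ) - 1 := by
      have h5 : ∀ x : ZMod p, (if x = 0 then (0 : ℝ) else 1) = 1 - (if x = 0 then 1 else 0) := by
        intro x
        split_ifs <;> simp
      rw [sum_congr rfl (fun x _ => h5 x), sum_sub_distrib, sum_ite_eq' univ (0 : ZMod p),
        if_pos (mem_univ _), sum_const, card_univ, ZMod.card, nsmul_eq_mul, mul_one]
    rw [h4, prod_const, card_univ, Fintype.card_fin]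
  rw [sum_congr rfl (fun v _ => h1 v), sum_sub_distrib, h2, sum_const, card_univ, nsmul_eq_mul,
    mul_one, Fintype.card_fun, ZMod.card, Fintype.card_fin]
  unfold dk
  push_cast
  have h6 : (p : ℝ) ^ k * (1 - (1 - 1 / (p : ℝ)) ^ k) = (p : ℝ) ^ k - (p * (1 - 1 / (p : ℝ))) ^ k := by
    rw [mul_pow]
    ring
  rw [h6]
  congr 2
  field_simp

theorem sum_hk_add [Fact p.Prime] (a : Fin k → ZMod p) : ∑ v : Fin k → ZMod p, hk (a + v) =
    (Fintype.card (Fin k → ZMod p) : ℝ) * dk k p := by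
  rw [← sum_hk]
  exact Fintype.sum_equiv (Equiv.addLeft a) _ _ (fun v => rfl)

/-- one point -/
theorem share_one [Fact p.Prime] (a : Fin k → ZMod p) (x : ZMod p) :
    ∑ w : (i : Fin k) → Fin (s i + 2) → ZMod p, hk (a + ev s p x w) =
      (Fintype.card ((i : Fin k) → Fin (s i + 2) → ZMod p) : ℝ) * dk k p := by
  have hsurj : Function.Surjective (ev s p x) := by
    intro u
    refine ⟨fun i => Fin.cons (u i) (Fin.cons 0 0), ?_⟩
    funext i
    have := ev_two (s := s) x u (fun _ => 0) i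
    rw [this, zero_mul, add_zero]
  have h1 := sum_surj (ev s p x) hsurj (fun v => hk (a + v))
  rw [sum_hk_add] at h1
  have h2 : (Fintype.card (Fin k → ZMod p) : ℝ) ≠ 0 := Nat.cast_ne_zero.2 Fintype.card_ne_zero
  apply mul_left_cancel₀ h2
  rw [h1]
  ring

/-- two points -/
theorem share_two [Fact p.Prime] (a a' : Fin k → ZMod p) {x x' : ZMod p} (hx : x ≠ x') :
    ∑ w : (i : Fin k) → Fin (s i + 2) → ZMod p, hk (a + ev s p x w) * hk (a' + ev s p x' w) =
      (Fintype.card ((i : Fin k) → Fin (s i + 2) → ZMod p) : ℝ) * dk k p ^ 2 := by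
  have hxx : x - x' ≠ 0 := sub_ne_zero.2 hx
  have hsurj : Function.Surjective ((ev s p x).prod (ev s p x')) := by
    rintro ⟨u, u'⟩
    refine ⟨fun i => Fin.cons (u i - (u i - u' i) / (x - x') * x)
      (Fin.cons ((u i - u' i) / (x - x')) 0), ?_⟩
    refine Prod.ext ?_ ?_
    · funext i
      have := ev_two (s := s) x (fun i => u i - (u i - u' i) / (x - x') * x)
        (fun i => (u i - u' i) / (x - x')) i
      refine Eq.trans this ?_
      show u i - (u i - u' i) / (x - x') * x + (u i - u' i) / (x - x') * x = u i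
      ring
    · funext i
      have := ev_two (s := s) x' (fun i => u i - (u i - u' i) / (x - x') * x)
        (fun i => (u i - u' i) / (x - x')) i
      refine Eq.trans this ?_
      show u i - (u i - u' i) / (x - x') * x + (u i - u' i) / (x - x') * x' = u' i
      have h1 : (u i - u' i) / (x - x') * (x - x') = u i - u' i := div_mul_cancel₀ _ hxx
      linear_combination -h1
  have h1 := sum_surj ((ev s p x).prod (ev s p x')) hsurj (fun v => hk (a + v.1) * hk (a' + v.2))
  have h3 : ∑ v : (Fin k → ZMod p) × (Fin k → ZMod p), hk (a + v.1) * hk (a' + v.2) =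
      ((Fintype.card (Fin k → ZMod p) : ℝ) * dk k p) * ((Fintype.card (Fin k → ZMod p) : ℝ) * dk k p) := by
    have e1 := sum_hk_add a
    have e2 := sum_hk_add a'
    rw [Fintype.sum_prod_type]
    have e3 := sum_mul_sum (univ : Finset (Fin k → ZMod p)) (univ : Finset (Fin k → ZMod p))
      (fun v => hk (a + v)) (fun v => hk (a' + v))
    rw [← e3, e1, e2]
  rw [h3, Fintype.card_prod] at h1
  have h2 : (Fintype.card (Fin k → ZMod p) : ℝ) ≠ 0 := Nat.cast_ne_zero.2 Fintype.card_ne_zero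
  have h4 : (((Fintype.card (Fin k → ZMod p)) * (Fintype.card (Fin k → ZMod p)) : ℕ) : ℝ) ≠ 0 := by
    push_cast
    exact mul_ne_zero h2 h2
  apply mul_left_cancel₀ h4
  refine h1.trans ?_
  push_cast
  ring

end prime

/-! ### the Chinese remainder theorem -/

theorem crt_sum {k : ℕ} (s : Fin k → ℕ) {U : Type} [Fintype U] (a : U → ℕ) [∀ u, NeZero (a u)]
    [NeZero (∏ u, a u)] (hco : Pairwise (Function.onFun Nat.Coprime a))
    (φ : (u : U) → ((i : Fin k) → Fin (s i + 2) → ZMod (a u)) → ℝ) :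
    ∑ v : (i : Fin k) → Fin (s i + 2) → ZMod (∏ u, a u),
      ∏ u, φ u (fun i l => ZMod.prodEquivPi a hco (v i l) u) =
    ∏ u, ∑ w : (i : Fin k) → Fin (s i + 2) → ZMod (a u), φ u w := by
  classical
  have h3 := Finset.prod_univ_sum (ι := U) (fun u => (univ : Finset ((i : Fin k) →
    Fin (s i + 2) → ZMod (a u)))) φ
  rw [Fintype.piFinset_univ] at h3
  rw [h3]
  let E : ((i : Fin k) → Fin (s i + 2) → ZMod (∏ u, a u)) ≃
      ((u : U) → (i : Fin k) → Fin (s i + 2) → ZMod (a u)) :=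
    { toFun := fun v u i l => ZMod.prodEquivPi a hco (v i l) u
      invFun := fun g i l => (ZMod.prodEquivPi a hco).symm (fun u => g u i l)
      left_inv := fun v => by
        funext i l
        exact (ZMod.prodEquivPi a hco).symm_apply_apply (v i l)
      right_inv := fun g => by
        funext u i l
        show ZMod.prodEquivPi a hco ((ZMod.prodEquivPi a hco).symm (fun u => g u i l)) u = _
        rw [RingEquiv.apply_symm_apply] }
  exact Fintype.sum_equiv E _ _ (fun v => rfl)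

/-! ### equidistribution -/

theorem abs_prod_sub_le {J : Type} (t : Finset J) (a : J → ℝ) {M : ℝ} (hM : 1 ≤ M)
    (ha : ∀ j ∈ t, |a j - M| ≤ 1) :
    |∏ j ∈ t, a j - M ^ t.card| ≤ t.card * 2 ^ t.card * M ^ t.card / M := by
  classical
  induction t using Finset.induction_on with
  | empty => simp
  | insert j t hj ih =>
    have ih' := ih (fun i hi => ha i (mem_insert_of_mem hi))
    have hj1 := ha j (mem_insert_self j t)
    rw [prod_insert hj, card_insert_of_notMem hj]
    have hM0 : 0 < M := by linarith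
    have haj : |a j| ≤ 2 * M := by
      rw [abs_le] at hj1 ⊢
      constructor <;> linarith [hj1.1, hj1.2]
    have e1 : a j * ∏ i ∈ t, a i - M ^ (t.card + 1) =
        a j * (∏ i ∈ t, a i - M ^ t.card) + (a j - M) * M ^ t.card := by ring
    rw [e1]
    refine (abs_add_le _ _).trans ?_
    rw [abs_mul, abs_mul, abs_of_nonneg (pow_nonneg hM0.le t.card)]
    have h1 : |a j| * |∏ i ∈ t, a i - M ^ t.card| ≤
        (2 * M) * (t.card * 2 ^ t.card * M ^ t.card / M) :=
      mul_le_mul haj ih' (abs_nonneg _) (by positivity)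
    have h2 : |a j - M| * M ^ t.card ≤ 1 * M ^ t.card :=
      mul_le_mul_of_nonneg_right hj1 (by positivity)
    have h3 : ((t.card + 1 : ℕ) : ℝ) * 2 ^ (t.card + 1) * M ^ (t.card + 1) / M =
        (2 * M) * (t.card * 2 ^ t.card * M ^ t.card / M) + 2 ^ (t.card + 1) * M ^ t.card := by
      push_cast
      field_simp
      ring
    rw [h3]
    have h4 : (1 : ℝ) * M ^ t.card ≤ 2 ^ (t.card + 1) * M ^ t.card :=
      mul_le_mul_of_nonneg_right (one_le_pow₀ (by norm_num)) (by positivity)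
    linarith

theorem cnt_le (q H : ℕ) (hq : 0 < q) (a : ZMod q) :
    |(((Finset.Icc (-(H : ℤ)) H).filter (fun x : ℤ => (x : ZMod q) = a)).card : ℝ) -
      (2 * H + 1) / q| ≤ 1 := by
  have : NeZero q := ⟨hq.ne'⟩
  obtain ⟨v, rfl⟩ : ∃ v : ℤ, (v : ZMod q) = a := ZMod.intCast_surjective a
  have h1 : (Finset.Icc (-(H : ℤ)) H).filter (fun x : ℤ => (x : ZMod q) = (v : ZMod q)) =
      (Finset.Ico (-(H : ℤ)) (H + 1)).filter (fun x : ℤ => x ≡ v [ZMOD q]) := by
    ext x
    rw [mem_filter, mem_filter, mem_Icc, mem_Ico, ZMod.intCast_eq_intCast_iff]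
    constructor
    · rintro ⟨⟨h2, h3⟩, h4⟩
      exact ⟨⟨h2, by omega⟩, h4⟩
    · rintro ⟨⟨h2, h3⟩, h4⟩
      exact ⟨⟨h2, by omega⟩, h4⟩
  have h2 := Int.Ico_filter_modEq_card (-(H : ℤ)) ((H : ℤ) + 1) (r := (q : ℤ))
    (by exact_mod_cast hq) v
  rw [h1]
  have h3 : (((Finset.Ico (-(H : ℤ)) (H + 1)).filter (fun x : ℤ => x ≡ v [ZMOD q])).card : ℚ) =
      max (((⌈((((H : ℤ) + 1 : ℤ) : ℚ) - v) / ((q : ℤ) : ℚ)⌉ -
        ⌈(((-(H : ℤ) : ℤ) : ℚ) - v) / ((q : ℤ) : ℚ)⌉ : ℤ)) : ℚ) 0 := by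
    exact_mod_cast congrArg (fun z : ℤ => (z : ℚ)) h2
  obtain ⟨A, hA⟩ : ∃ A, A = ((((H : ℤ) + 1 : ℤ) : ℚ) - v) / ((q : ℤ) : ℚ) := ⟨_, rfl⟩
  obtain ⟨B, hB⟩ : ∃ B, B = (((-(H : ℤ) : ℤ) : ℚ) - v) / ((q : ℤ) : ℚ) := ⟨_, rfl⟩
  rw [← hA, ← hB] at h3
  have hq0 : (0 : ℚ) < q := by exact_mod_cast hq
  have h4 : A - B = (2 * H + 1) / q := by
    rw [hA, hB, ← sub_div]
    push_cast
    congr 1
    ring
  have hAB : B ≤ A := by
    have : 0 ≤ A - B := by
      rw [h4]
      positivity
    linarith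
  have h5 : ((⌈A⌉ - ⌈B⌉ : ℤ) : ℚ) ≥ 0 := by
    have := Int.ceil_mono hAB
    have h6 : (0 : ℤ) ≤ ⌈A⌉ - ⌈B⌉ := by linarith
    exact_mod_cast h6
  rw [max_eq_left h5] at h3
  have h6 := Int.le_ceil A
  have h7 := Int.ceil_lt_add_one A
  have h8 := Int.le_ceil B
  have h9 := Int.ceil_lt_add_one B
  have h10 : |(((Finset.Ico (-(H : ℤ)) (H + 1)).filter (fun x : ℤ => x ≡ v [ZMOD q])).card : ℚ) -
      (2 * H + 1) / q| ≤ 1 := by
    rw [h3, ← h4, abs_le]
    push_cast
    constructor <;> linarith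
  have h11 := (Rat.cast_le (K := ℝ)).2 h10
  push_cast at h11
  exact h11

/-- the number of coefficients -/
def NN {k : ℕ} (s : Fin k → ℕ) : ℕ := Fintype.card (Σ i : Fin k, Fin (s i + 2))

theorem card_sb {k : ℕ} (s : Fin k → ℕ) (H : ℕ) : ((SB k s H).card : ℝ) = (2 * H + 1) ^ NN s := by
  have h1 : (Finset.Icc (-(H : ℤ)) H).card = 2 * H + 1 := by
    rw [Int.card_Icc]
    omega
  unfold SB BX NN
  rw [Fintype.card_piFinset]
  simp only [Fintype.card_piFinset, h1]
  rw [← Fintype.prod_sigma' (fun (i : Fin k) (_ : Fin (s i + 2)) => 2 * H + 1), prod_const,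
    card_univ]
  push_cast
  rfl

theorem card_fun_zmod {k : ℕ} (s : Fin k → ℕ) (q : ℕ) [NeZero q] :
    Fintype.card ((i : Fin k) → Fin (s i + 2) → ZMod q) = q ^ NN s := by
  unfold NN
  rw [Fintype.card_pi]
  simp only [Fintype.card_pi, ZMod.card]
  rw [← Fintype.prod_sigma' (fun (i : Fin k) (_ : Fin (s i + 2)) => q), prod_const,
    card_univ]

/-- equidistribution modulo `q` -/
theorem equi {k : ℕ} (s : Fin k → ℕ) (H q : ℕ) [NeZero q] (hq : q ≤ H)
    (f : ((i : Fin k) → Fin (s i + 2) → ZMod q) → ℝ) (hf : ∀ v, |f v| ≤ 1) :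
    |∑ c ∈ SB k s H, f (fun i l => (c i l : ZMod q)) -
      ((2 * H + 1) / q) ^ NN s * ∑ v, f v| ≤ NN s * 2 ^ NN s * (q / H) * (SB k s H).card := by
  classical
  have hq0 : 0 < q := Nat.pos_of_ne_zero (NeZero.ne q)
  have hqR : (0 : ℝ) < q := by exact_mod_cast hq0
  have hH0 : (0 : ℝ) < H := by exact_mod_cast hq0.trans_le hq
  have hqH : (q : ℝ) ≤ H := by exact_mod_cast hq
  obtain ⟨M, hM⟩ : ∃ M : ℝ, M = (2 * H + 1) / q := ⟨_, rfl⟩
  have hM1 : 1 ≤ M := by
    rw [hM, le_div_iff₀ hqR]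
    linarith
  let cnt : ZMod q → ℕ := fun a =>
    ((Finset.Icc (-(H : ℤ)) H).filter (fun x : ℤ => (x : ZMod q) = a)).card
  have hfib : ∀ v : (i : Fin k) → Fin (s i + 2) → ZMod q,
      ((SB k s H).filter (fun c => (fun i l => (c i l : ZMod q)) = v)).card =
        ∏ j : (Σ i : Fin k, Fin (s i + 2)), cnt (v j.1 j.2) := by
    intro v
    have h1 : (SB k s H).filter (fun c => (fun i l => (c i l : ZMod q)) = v) =
        Fintype.piFinset (fun i => Fintype.piFinset (fun l =>
          (Finset.Icc (-(H : ℤ)) H).filter (fun x : ℤ => (x : ZMod q) = v i l))) := by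
      ext c
      unfold SB BX
      simp only [mem_filter, Fintype.mem_piFinset]
      constructor
      · rintro ⟨h2, h3⟩ i l
        exact ⟨h2 i l, congrFun (congrFun h3 i) l⟩
      · intro h2
        exact ⟨fun i l => (h2 i l).1, by
          funext i l
          exact (h2 i l).2⟩
    rw [h1, Fintype.card_piFinset]
    simp only [Fintype.card_piFinset]
    rw [Fintype.prod_sigma]
  have hcnt : ∀ v : (i : Fin k) → Fin (s i + 2) → ZMod q,
      |((∏ j : (Σ i : Fin k, Fin (s i + 2)), cnt (v j.1 j.2) : ℕ) : ℝ) - M ^ NN s| ≤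
        NN s * 2 ^ NN s * M ^ NN s / M := by
    intro v
    have h1 := abs_prod_sub_le (univ : Finset (Σ i : Fin k, Fin (s i + 2)))
      (fun j => (cnt (v j.1 j.2) : ℝ)) hM1 (fun j _ => by
        rw [hM]
        exact cnt_le q H hq0 (v j.1 j.2))
    rw [card_univ] at h1
    push_cast
    exact h1
  have hsum : ∑ c ∈ SB k s H, f (fun i l => (c i l : ZMod q)) =
      ∑ v, ((∏ j : (Σ i : Fin k, Fin (s i + 2)), cnt (v j.1 j.2) : ℕ) : ℝ) * f v := by
    rw [← Finset.sum_fiberwise_of_maps_to (s := SB k s H) (t := univ)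
      (g := fun c => ((fun i l => (c i l : ZMod q)) : (i : Fin k) → Fin (s i + 2) → ZMod q))
      (fun v _ => mem_univ _)]
    refine sum_congr rfl fun v _ => ?_
    rw [sum_congr rfl (fun c hc => by rw [(mem_filter.1 hc).2]), sum_const, nsmul_eq_mul, hfib v]
  rw [hsum, ← hM, mul_sum, ← sum_sub_distrib]
  refine (abs_sum_le_sum_abs _ _).trans ?_
  have h2 : ∀ v ∈ (univ : Finset ((i : Fin k) → Fin (s i + 2) → ZMod q)),
      |((∏ j : (Σ i : Fin k, Fin (s i + 2)), cnt (v j.1 j.2) : ℕ) : ℝ) * f v - M ^ NN s * f v| ≤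
        NN s * 2 ^ NN s * M ^ NN s / M := by
    intro v _
    rw [← sub_mul, abs_mul]
    calc _ ≤ |((∏ j : (Σ i : Fin k, Fin (s i + 2)), cnt (v j.1 j.2) : ℕ) : ℝ) - M ^ NN s| * 1 :=
          mul_le_mul_of_nonneg_left (hf v) (abs_nonneg _)
      _ ≤ _ := by
          rw [mul_one]
          exact hcnt v
  refine (sum_le_sum h2).trans ?_
  rw [sum_const, nsmul_eq_mul, card_univ, card_fun_zmod, card_sb]
  have h3 : (2 * (H : ℝ) + 1) ^ NN s = (q : ℝ) ^ NN s * M ^ NN s := by
    rw [hM, ← mul_pow]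
    congr 1
    field_simp
  rw [h3]
  push_cast
  have h4 : 1 / M ≤ (q : ℝ) / H := by
    rw [hM, one_div_div]
    exact div_le_div_of_nonneg_left hqR.le hH0 (by linarith)
  have h5 : (q : ℝ) ^ NN s * (NN s * 2 ^ NN s * M ^ NN s / M) =
      (NN s * 2 ^ NN s * ((q : ℝ) ^ NN s * M ^ NN s)) * (1 / M) := by ring
  have h6 : NN s * 2 ^ NN s * ((q : ℝ) / H) * ((q : ℝ) ^ NN s * M ^ NN s) =
      (NN s * 2 ^ NN s * ((q : ℝ) ^ NN s * M ^ NN s)) * ((q : ℝ) / H) := by ring
  rw [h5, h6]
  have hM0 : 0 < M := by linarith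
  exact mul_le_mul_of_nonneg_left h4 (by positivity)

/-! ### the theorem -/

theorem hk_nonneg {k p : ℕ} (v : Fin k → ZMod p) : 0 ≤ hk v := by
  unfold hk
  split_ifs <;> norm_num

theorem hk_le {k p : ℕ} (v : Fin k → ZMod p) : hk v ≤ 1 := by
  unfold hk
  split_ifs <;> norm_num

/-- the values of the fixed polynomials -/
def ga {k : ℕ} (G : Fin k → ℤ[X]) (p m : ℕ) (i : Fin k) : ZMod p := (((G i).eval (m : ℤ) : ℤ) : ZMod p)

theorem hit_iff {k : ℕ} (s : Fin k → ℕ) (G : Fin k → ℤ[X]) (c : (i : Fin k) → Fin (s i + 2) → ℤ)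
    (p m : ℕ) : hit s G c p m ↔
      ∃ i, (ga G p m + ev s p (m : ZMod p) (fun i l => (c i l : ZMod p))) i = 0 := by
  unfold hit
  refine exists_congr fun i => ?_
  rw [← ZMod.intCast_zmod_eq_zero_iff_dvd]
  have h1 : ((pw (s i) (G i) (c i) m : ℤ) : ZMod p) =
      (ga G p m + ev s p (m : ZMod p) (fun i l => (c i l : ZMod p))) i := by
    show ((((G i).eval (m : ℤ) + ∑ l, c i l * (m : ℤ) ^ (l : ℕ) : ℤ)) : ZMod p) =
      (((G i).eval (m : ℤ) : ℤ) : ZMod p) + ∑ l, (c i l : ZMod p) * (m : ZMod p) ^ (l : ℕ)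
    push_cast
    rfl
  rw [h1]

theorem eqd : S_EQD := by
  intro k s
  classical
  refine ⟨NN s * 2 ^ NN s, by positivity, ?_⟩
  intro G H T T' n n' hH hpr hprod
  obtain ⟨U, hU⟩ : ∃ U, U = T ∪ T' := ⟨_, rfl⟩
  rw [← hU] at hpr hprod ⊢
  let a : ↥U → ℕ := fun u => (u : ℕ)
  have hpr' : ∀ u : ↥U, (a u).Prime := fun u => hpr u u.2
  have hfact : ∀ u : ↥U, Fact (a u).Prime := fun u => ⟨hpr' u⟩
  have hne : ∀ u : ↥U, NeZero (a u) := fun u => ⟨(hpr' u).ne_zero⟩
  have hneq : NeZero (∏ u, a u) := ⟨prod_ne_zero_iff.2 fun u _ => (hpr' u).ne_zero⟩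
  have hco : Pairwise (Function.onFun Nat.Coprime a) := fun u v huv =>
    (Nat.coprime_primes (hpr' u) (hpr' v)).2 (fun h => huv (Subtype.ext h))
  have hqprod : ((∏ u, a u : ℕ) : ℝ) = ∏ p ∈ U, (p : ℝ) := by
    push_cast
    exact Finset.prod_coe_sort U (fun p : ℕ => (p : ℝ))
  have hqH : ∏ u, a u ≤ H := by
    have : ((∏ u, a u : ℕ) : ℝ) ≤ H := by
      rw [hqprod]
      exact hprod
    exact_mod_cast this
  let h1 : (u : ↥U) → ℕ → ((i : Fin k) → Fin (s i + 2) → ZMod (a u)) → ℝ :=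
    fun u m w => hk (ga G (a u) m + ev s (a u) (m : ZMod (a u)) w)
  let φ : (u : ↥U) → ((i : Fin k) → Fin (s i + 2) → ZMod (a u)) → ℝ := fun u w =>
    (if (u : ℕ) ∈ T then h1 u n w else 1) * (if (u : ℕ) ∈ T' then h1 u n' w else 1)
  let D : ℕ → ℝ := fun p => if p ∈ T ∧ p ∈ T' ∧ ¬ n ≡ n' [MOD p] then dk k p ^ 2 else dk k p
  have hshare : ∀ u : ↥U, ∑ w, φ u w =
      (Fintype.card ((i : Fin k) → Fin (s i + 2) → ZMod (a u)) : ℝ) * D u := by
    intro u
    have := hfact u
    show ∑ w, (if (u : ℕ) ∈ T then h1 u n w else 1) * (if (u : ℕ) ∈ T' then h1 u n' w else 1) =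
      (Fintype.card ((i : Fin k) → Fin (s i + 2) → ZMod (a u)) : ℝ) *
        (if (u : ℕ) ∈ T ∧ (u : ℕ) ∈ T' ∧ ¬ n ≡ n' [MOD u] then dk k u ^ 2 else dk k u)
    by_cases hT : (u : ℕ) ∈ T
    · by_cases hT' : (u : ℕ) ∈ T'
      · by_cases hn : n ≡ n' [MOD u]
        · rw [if_neg (fun h => h.2.2 hn)]
          have e1 : ∀ w, (if (u : ℕ) ∈ T then h1 u n w else 1) *
              (if (u : ℕ) ∈ T' then h1 u n' w else 1) = h1 u n w := by
            intro w
            rw [if_pos hT, if_pos hT']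
            have e2 : ((n : ℕ) : ZMod (a u)) = ((n' : ℕ) : ZMod (a u)) :=
              (ZMod.natCast_eq_natCast_iff n n' (a u)).2 hn
            have e3 : ga G (a u) n = ga G (a u) n' := by
              funext i
              show (((G i).eval (n : ℤ) : ℤ) : ZMod (a u)) = (((G i).eval (n' : ℤ) : ℤ) : ZMod (a u))
              have e4 : ∀ m : ℕ, (((G i).eval (m : ℤ) : ℤ) : ZMod (a u)) =
                  ((G i).map (Int.castRingHom (ZMod (a u)))).eval (m : ZMod (a u)) := by
                intro m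
                have := Polynomial.eval_intCast_map (Int.castRingHom (ZMod (a u))) (G i) (m : ℤ)
                push_cast at this
                rw [this]
                rfl
              rw [e4, e4, e2]
            have e5 : h1 u n' w = h1 u n w := by
              show hk (ga G (a u) n' + ev s (a u) (n' : ZMod (a u)) w) =
                hk (ga G (a u) n + ev s (a u) (n : ZMod (a u)) w)
              rw [e3, e2]
            rw [e5]
            show hk _ * hk _ = hk _
            unfold hk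
            split_ifs <;> norm_num
          rw [sum_congr rfl (fun w _ => e1 w)]
          exact share_one _ _
        · rw [if_pos ⟨hT, hT', hn⟩]
          simp only [if_pos hT, if_pos hT']
          exact share_two _ _ (fun h => hn ((ZMod.natCast_eq_natCast_iff n n' (a u)).1 h))
      · rw [if_neg (fun h => hT' h.2.1)]
        simp only [if_pos hT, if_neg hT', mul_one]
        exact share_one _ _
    · have hT' : (u : ℕ) ∈ T' := by
        have h2 : (u : ℕ) ∈ T ∪ T' := hU ▸ u.2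
        exact (mem_union.1 h2).resolve_left hT
      rw [if_neg (fun h => hT h.1)]
      simp only [if_neg hT, if_pos hT', one_mul]
      exact share_one _ _
  let f : ((i : Fin k) → Fin (s i + 2) → ZMod (∏ u, a u)) → ℝ := fun v =>
    ∏ u, φ u (fun i l => ZMod.prodEquivPi a hco (v i l) u)
  have hφ0 : ∀ u w, 0 ≤ φ u w := fun u w => by
    show 0 ≤ (if (u : ℕ) ∈ T then hk _ else 1) * (if (u : ℕ) ∈ T' then hk _ else 1)
    refine mul_nonneg ?_ ?_
    · split_ifs
      · exact hk_nonneg _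
      · norm_num
    · split_ifs
      · exact hk_nonneg _
      · norm_num
  have hφ1 : ∀ u w, φ u w ≤ 1 := fun u w => by
    show (if (u : ℕ) ∈ T then hk _ else 1) * (if (u : ℕ) ∈ T' then hk _ else 1) ≤ 1
    refine mul_le_one₀ ?_ ?_ ?_
    · split_ifs
      · exact hk_le _
      · norm_num
    · split_ifs
      · exact hk_nonneg _
      · norm_num
    · split_ifs
      · exact hk_le _
      · norm_num
  have hf1 : ∀ v, |f v| ≤ 1 := by
    intro v
    rw [abs_of_nonneg (prod_nonneg fun u _ => hφ0 u _)]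
    exact prod_le_one (fun u _ => hφ0 u _) (fun u _ => hφ1 u _)
  have hfx : ∀ c : (i : Fin k) → Fin (s i + 2) → ℤ, xi s G c T n * xi s G c T' n' =
      f (fun i l => (c i l : ZMod (∏ u, a u))) := by
    intro c
    have e1 : ∀ u : ↥U, (fun i l => ZMod.prodEquivPi a hco ((c i l : ℤ) : ZMod (∏ u, a u)) u :
        (i : Fin k) → Fin (s i + 2) → ZMod (a u)) = fun i l => ((c i l : ℤ) : ZMod (a u)) := by
      intro u
      funext i l
      rw [map_intCast]
      rfl
    have e2 : ∀ (u : ↥U) (m : ℕ), h1 u m (fun i l => ((c i l : ℤ) : ZMod (a u))) =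
        if hit s G c u m then 1 else 0 := by
      intro u m
      show hk _ = _
      unfold hk
      by_cases h : hit s G c u m
      · rw [if_pos h, if_pos ((hit_iff s G c u m).1 h)]
      · rw [if_neg h, if_neg (fun h' => h ((hit_iff s G c u m).2 h'))]
    have e3 : ∀ (R : Finset ℕ) (m : ℕ), R ⊆ U → xi s G c R m =
        ∏ u : ↥U, (if (u : ℕ) ∈ R then (if hit s G c u m then (1 : ℝ) else 0) else 1) := by
      intro R m hR
      rw [Finset.prod_coe_sort U (fun p : ℕ => if p ∈ R then (if hit s G c p m then (1 : ℝ) else 0)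
        else 1)]
      unfold xi
      by_cases h : ∀ p ∈ R, hit s G c p m
      · rw [if_pos h]
        symm
        refine prod_eq_one fun p _ => ?_
        by_cases hp : p ∈ R
        · rw [if_pos hp, if_pos (h p hp)]
        · rw [if_neg hp]
      · rw [if_neg h]
        push Not at h
        obtain ⟨p, hp, hp'⟩ := h
        symm
        refine prod_eq_zero (hR hp) ?_
        rw [if_pos hp, if_neg hp']
    rw [e3 T n (by rw [hU]; exact subset_union_left), e3 T' n' (by rw [hU]; exact subset_union_right),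
      ← prod_mul_distrib]
    refine prod_congr rfl fun u _ => ?_
    show _ = (if (u : ℕ) ∈ T then h1 u n _ else 1) * (if (u : ℕ) ∈ T' then h1 u n' _ else 1)
    rw [e1 u, e2 u n, e2 u n']
  have hsumf : ∑ v, f v = ((∏ u, a u : ℕ) : ℝ) ^ NN s * ∏ p ∈ U, D p := by
    have e1 := crt_sum s a hco φ
    have e2 := crt_sum s a hco (fun u _ => (1 : ℝ))
    have e3 : ((∏ u, a u : ℕ) : ℝ) ^ NN s =
        ∏ u : ↥U, (Fintype.card ((i : Fin k) → Fin (s i + 2) → ZMod (a u)) : ℝ) := by
      simp only [prod_const_one, sum_const, card_univ, nsmul_eq_mul, mul_one] at e2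
      rw [← e2, card_fun_zmod]
      push_cast
      rfl
    rw [e3, ← Finset.prod_coe_sort U D, ← prod_mul_distrib]
    refine e1.trans (prod_congr rfl fun u _ => hshare u)
  have key := equi s H (∏ u, a u) hqH f hf1
  rw [sum_congr rfl (fun c _ => hfx c)]
  rw [hsumf, ← mul_assoc, ← mul_pow] at key
  have hq0 : ((∏ u, a u : ℕ) : ℝ) ≠ 0 := Nat.cast_ne_zero.2 hneq.ne
  rw [div_mul_cancel₀ _ hq0, hqprod, ← card_sb] at key
  exact key

end Pool.Agent.Q14.CR
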