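import Pool.Agent.Q236.CR.Stm3
import Pool.Agent.Q14.CR.Eqd

/-!
# Project CR (helper236), job VAR: variance of the sieve sums over random systems
-/

set_option autoImplicit false

namespace Pool.Agent.Q14.CR

open Finset Polynomial Pool.Agent.Q236.CR
open Pool.Agent.H373R2.T7 (pz sum_pz_le)

/-! ### the Chinese remainder theorem in one variable -/

theorem crt_one {U : Type} [Fintype U] (a : U → ℕ) [∀ u, NeZero (a u)]
    [NeZero (∏ u, a u)] (hco : Pairwise (Function.onFun Nat.Coprime a))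
    (φ : (u : U) → ZMod (a u) → ℝ) :
    ∑ x : ZMod (∏ u, a u), ∏ u, φ u (ZMod.prodEquivPi a hco x u) =
    ∏ u, ∑ y : ZMod (a u), φ u y := by
  classical
  have h3 := Finset.prod_univ_sum (ι := U) (fun u => (univ : Finset (ZMod (a u)))) φ
  rw [Fintype.piFinset_univ] at h3
  rw [h3]
  exact Fintype.sum_equiv (ZMod.prodEquivPi a hco).toEquiv _ _ (fun v => rfl)

theorem sum_range_zmod (q : ℕ) [NeZero q] (F : ZMod q → ℝ) :
    ∑ m ∈ range q, F (m : ZMod q) = ∑ x, F x := by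
  refine sum_bij' (fun m _ => (m : ZMod q)) (fun x _ => x.val) (fun m _ => mem_univ _)
    (fun x _ => mem_range.2 (ZMod.val_lt x)) (fun m hm => ?_) (fun x _ => ?_) (fun m _ => rfl)
  · exact ZMod.val_cast_of_lt (mem_range.1 hm)
  · exact ZMod.natCast_zmod_val x

section mean

variable {k : ℕ} (s : Fin k → ℕ) (G : Fin k → ℤ[X]) (c : (i : Fin k) → Fin (s i + 2) → ℤ)

/-- the values at a residue -/
noncomputable def vz (p : ℕ) (x : ZMod p) (i : Fin k) : ZMod p :=
  ((G i).map (Int.castRingHom (ZMod p))).eval x + ∑ l, (c i l : ZMod p) * x ^ (l : ℕ)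

theorem hit_vz (p m : ℕ) : hit s G c p m ↔ ∃ i, vz s G c p (m : ZMod p) i = 0 := by
  unfold hit
  refine exists_congr fun i => ?_
  rw [← ZMod.intCast_zmod_eq_zero_iff_dvd]
  have h1 : ((pw (s i) (G i) (c i) m : ℤ) : ZMod p) = vz s G c p (m : ZMod p) i := by
    show ((((G i).eval (m : ℤ) + ∑ l, c i l * (m : ℤ) ^ (l : ℕ) : ℤ)) : ZMod p) =
      ((G i).map (Int.castRingHom (ZMod p))).eval (m : ZMod p) +
        ∑ l, (c i l : ZMod p) * (m : ZMod p) ^ (l : ℕ)
    have h2 := Polynomial.eval_intCast_map (Int.castRingHom (ZMod p)) (G i) (m : ℤ)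
    push_cast at h2 ⊢
    rw [h2]
    rfl
  rw [h1]

open Classical in
theorem omc_eq (p : ℕ) [NeZero p] :
    (omc s G c p : ℝ) = ∑ x : ZMod p, (if ∃ i, vz s G c p x i = 0 then (1 : ℝ) else 0) := by
  rw [← sum_range_zmod]
  unfold omc
  rw [card_filter]
  push_cast
  refine sum_congr rfl fun m _ => ?_
  by_cases h : hit s G c p m
  · rw [if_pos h, if_pos ((hit_vz s G c p m).1 h)]
  · rw [if_neg h, if_neg (fun h' => h ((hit_vz s G c p m).2 h'))]

/-- the mean value over a full period -/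
theorem rho_mean {P : Finset ℕ} (hP : ∀ p ∈ P, p.Prime) {T : Finset ℕ} (hT : T ⊆ P) :
    ∑ m ∈ range (∏ p ∈ P, p), xi s G c T m = (∏ p ∈ P, (p : ℝ)) * rhoT s G c T := by
  classical
  let a : ↥P → ℕ := fun u => (u : ℕ)
  have hpr' : ∀ u : ↥P, (a u).Prime := fun u => hP u u.2
  have hne : ∀ u : ↥P, NeZero (a u) := fun u => ⟨(hpr' u).ne_zero⟩
  have hneq : NeZero (∏ u, a u) := ⟨prod_ne_zero_iff.2 fun u _ => (hpr' u).ne_zero⟩
  have hco : Pairwise (Function.onFun Nat.Coprime a) := fun u v huv =>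
    (Nat.coprime_primes (hpr' u) (hpr' v)).2 (fun h => huv (Subtype.ext h))
  have hprod : ∏ p ∈ P, p = ∏ u, a u := (Finset.prod_coe_sort P (fun p : ℕ => p)).symm
  let φ : (u : ↥P) → ZMod (a u) → ℝ := fun u x =>
    if (u : ℕ) ∈ T then (if ∃ i, vz s G c (a u) x i = 0 then (1 : ℝ) else 0) else 1
  have h1 : ∀ m : ℕ, xi s G c T m =
      ∏ u, φ u (ZMod.prodEquivPi a hco ((m : ℕ) : ZMod (∏ u, a u)) u) := by
    intro m
    have h2 : ∀ u : ↥P, φ u (ZMod.prodEquivPi a hco ((m : ℕ) : ZMod (∏ u, a u)) u) =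
        if (u : ℕ) ∈ T then (if hit s G c u m then (1 : ℝ) else 0) else 1 := by
      intro u
      rw [map_natCast]
      show (if (u : ℕ) ∈ T then (if ∃ i, vz s G c (a u) ((m : ℕ) : ZMod (a u)) i = 0 then (1 : ℝ)
        else 0) else 1) = _
      by_cases hu : (u : ℕ) ∈ T
      · rw [if_pos hu, if_pos hu]
        by_cases h : hit s G c u m
        · rw [if_pos h, if_pos ((hit_vz s G c u m).1 h)]
        · rw [if_neg h, if_neg (fun h' => h ((hit_vz s G c u m).2 h'))]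
      · rw [if_neg hu, if_neg hu]
    rw [prod_congr rfl (fun u _ => h2 u),
      Finset.prod_coe_sort P (fun p : ℕ => if p ∈ T then (if hit s G c p m then (1 : ℝ) else 0)
        else 1)]
    unfold xi
    by_cases h : ∀ p ∈ T, hit s G c p m
    · rw [if_pos h]
      symm
      refine prod_eq_one fun p _ => ?_
      by_cases hp : p ∈ T
      · rw [if_pos hp, if_pos (h p hp)]
      · rw [if_neg hp]
    · rw [if_neg h]
      push Not at h
      obtain ⟨p, hp, hp'⟩ := h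
      symm
      refine prod_eq_zero (hT hp) ?_
      rw [if_pos hp, if_neg hp']
  rw [hprod, sum_congr rfl (fun m _ => h1 m),
    sum_range_zmod (∏ u, a u) (fun x => ∏ u, φ u (ZMod.prodEquivPi a hco x u)), crt_one a hco φ]
  have h3 : ∀ u : ↥P, ∑ y, φ u y = if (u : ℕ) ∈ T then (omc s G c u : ℝ) else (u : ℕ) := by
    intro u
    by_cases hu : (u : ℕ) ∈ T
    · rw [if_pos hu]
      have h4 := omc_eq s G c (a u)
      refine Eq.trans ?_ h4.symm
      refine sum_congr rfl fun y _ => ?_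
      show (if (u : ℕ) ∈ T then _ else _) = _
      rw [if_pos hu]
    · rw [if_neg hu]
      have h4 : ∀ y ∈ (univ : Finset (ZMod (a u))), φ u y = 1 := by
        intro y _
        show (if (u : ℕ) ∈ T then _ else _) = _
        rw [if_neg hu]
      rw [sum_congr rfl h4, sum_const, card_univ, ZMod.card, nsmul_eq_mul, mul_one]
  rw [prod_congr rfl (fun u _ => h3 u),
    Finset.prod_coe_sort P (fun p : ℕ => if p ∈ T then (omc s G c p : ℝ) else (p : ℝ))]
  unfold rhoT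
  have h5 : ∏ p ∈ T, (omc s G c p : ℝ) / p =
      ∏ p ∈ P, (if p ∈ T then (omc s G c p : ℝ) / p else 1) := by
    rw [prod_ite_mem, inter_eq_right.2 hT]
  rw [h5, ← prod_mul_distrib]
  refine prod_congr rfl fun p hp => ?_
  have hp0 : (p : ℝ) ≠ 0 := Nat.cast_ne_zero.2 (hP p hp).ne_zero
  by_cases hpT : p ∈ T
  · rw [if_pos hpT, if_pos hpT, mul_div_cancel₀ _ hp0]
  · rw [if_neg hpT, if_neg hpT, mul_one]

end mean

/-! ### the weights -/

/-- the weights -/
noncomputable def wt (K M n : ℕ) : ℝ :=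
  (if n ∈ Icc 1 K then 1 else 0) - (K / M : ℝ) * (if n ∈ range M then 1 else 0)

/-- their support -/
def Om (K M : ℕ) : Finset ℕ := Icc 1 K ∪ range M

theorem wt_sum (K M : ℕ) (f : ℕ → ℝ) :
    ∑ n ∈ Om K M, wt K M n * f n = ∑ n ∈ Icc 1 K, f n - (K / M : ℝ) * ∑ m ∈ range M, f m := by
  classical
  have h1 : ∑ n ∈ Om K M, (if n ∈ Icc 1 K then f n else 0) = ∑ n ∈ Icc 1 K, f n := by
    rw [sum_ite_mem]
    congr 1
    exact inter_eq_right.2 subset_union_left
  have h2 : ∑ n ∈ Om K M, (if n ∈ range M then f n else 0) = ∑ n ∈ range M, f n := by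
    rw [sum_ite_mem]
    congr 1
    exact inter_eq_right.2 subset_union_right
  rw [← h1, ← h2, mul_sum, ← sum_sub_distrib]
  refine sum_congr rfl fun n _ => ?_
  unfold wt
  split_ifs <;> ring

theorem wt_abs {K M : ℕ} (hM : 0 < M) : ∑ n ∈ Om K M, |wt K M n| ≤ 2 * K := by
  classical
  have hM0 : (0 : ℝ) < M := by exact_mod_cast hM
  have h1 : ∀ n ∈ Om K M, |wt K M n| ≤ (if n ∈ Icc 1 K then (1 : ℝ) else 0) +
      (K / M : ℝ) * (if n ∈ range M then 1 else 0) := by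
    intro n _
    unfold wt
    have h2 : (0 : ℝ) ≤ K / M := by positivity
    rw [abs_le]
    split_ifs <;> constructor <;> linarith
  refine (sum_le_sum h1).trans ?_
  rw [sum_add_distrib, ← mul_sum, sum_ite_mem, sum_ite_mem]
  have e1 : Om K M ∩ Icc 1 K = Icc 1 K := inter_eq_right.2 subset_union_left
  have e2 : Om K M ∩ range M = range M := inter_eq_right.2 subset_union_right
  rw [e1, e2, sum_const, sum_const, Nat.card_Icc, card_range, nsmul_eq_mul, nsmul_eq_mul]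
  have e3 : ((K + 1 - 1 : ℕ) : ℝ) = K := by
    rw [Nat.add_sub_cancel]
  rw [e3, mul_one, mul_one, div_mul_cancel₀ _ hM0.ne']
  linarith

theorem cnt_mod {K q a : ℕ} (hq : 0 < q) (ha : a < q) :
    |(((Icc 1 K).filter (fun n => n % q = a)).card : ℝ) - (K : ℝ) / q| < 1 := by
  have h1 : (Icc 1 K).filter (fun n => n % q = a) = (Ioc 0 K).filter (fun n => n ≡ a [MOD q]) := by
    ext n
    rw [mem_filter, mem_filter, mem_Icc, mem_Ioc, Nat.ModEq, Nat.mod_eq_of_lt ha]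
    constructor
    · rintro ⟨⟨h2, h3⟩, h4⟩
      exact ⟨⟨h2, h3⟩, h4⟩
    · rintro ⟨⟨h2, h3⟩, h4⟩
      exact ⟨⟨h2, h3⟩, h4⟩
  have h2 := Nat.Ioc_filter_modEq_card 0 K hq a
  rw [h1]
  obtain ⟨A, hA⟩ : ∃ A : ℚ, A = ((K : ℚ) - a) / q := ⟨_, rfl⟩
  obtain ⟨B, hB⟩ : ∃ B : ℚ, B = (((0 : ℕ) : ℚ) - a) / q := ⟨_, rfl⟩
  rw [← hA, ← hB] at h2
  have hq0 : (0 : ℚ) < q := by exact_mod_cast hq
  have h4 : A - B = K / q := by
    rw [hA, hB, ← sub_div]
    push_cast
    congr 1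
    ring
  have hAB : B ≤ A := by
    have : 0 ≤ A - B := by
      rw [h4]
      positivity
    linarith
  have h5 : (0 : ℤ) ≤ ⌊A⌋ - ⌊B⌋ := by
    have := Int.floor_mono hAB
    linarith
  rw [max_eq_left h5] at h2
  have h3 : (((Ioc 0 K).filter (fun n => n ≡ a [MOD q])).card : ℚ) = (⌊A⌋ : ℚ) - ⌊B⌋ := by
    exact_mod_cast congrArg (fun z : ℤ => (z : ℚ)) h2
  have h6 := Int.floor_le A
  have h7 := Int.lt_floor_add_one A
  have h8 := Int.floor_le B
  have h9 := Int.lt_floor_add_one B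
  have h10 : |(((Ioc 0 K).filter (fun n => n ≡ a [MOD q])).card : ℚ) - K / q| < 1 := by
    rw [h3, ← h4, abs_lt]
    constructor <;> linarith
  have h11 := (Rat.cast_lt (K := ℝ)).2 h10
  push_cast at h11
  exact h11

theorem cnt_full {M q a : ℕ} (hq : 0 < q) (ha : a < q) (hqM : q ∣ M) :
    (((range M).filter (fun n => n % q = a)).card : ℝ) = (M : ℝ) / q := by
  obtain ⟨m, rfl⟩ := hqM
  have hq0 : (q : ℝ) ≠ 0 := Nat.cast_ne_zero.2 hq.ne'
  have h1 : (range (q * m)).filter (fun n => n % q = a) = (range m).image (fun j => a + q * j) := by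
    ext n
    rw [mem_filter, mem_image, mem_range]
    constructor
    · rintro ⟨h2, h3⟩
      refine ⟨n / q, mem_range.2 ((Nat.div_lt_iff_lt_mul hq).2 (by rw [mul_comm]; exact h2)), ?_⟩
      rw [← h3]
      exact Nat.mod_add_div n q
    · rintro ⟨j, hj, rfl⟩
      rw [mem_range] at hj
      refine ⟨?_, ?_⟩
      · calc a + q * j < q + q * j := Nat.add_lt_add_right ha _
          _ = q * (j + 1) := by ring
          _ ≤ q * m := Nat.mul_le_mul_left q hj
      · rw [Nat.add_mul_mod_self_left, Nat.mod_eq_of_lt ha]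
  rw [h1, card_image_of_injective _ (fun i j hij => ?_), card_range]
  · push_cast
    rw [mul_div_cancel_left₀ _ hq0]
  · have h2 : q * i = q * j := Nat.add_left_cancel hij
    exact Nat.eq_of_mul_eq_mul_left hq h2

/-- the quadratic form of a congruence -/
noncomputable def QE (K M q : ℕ) : ℝ :=
  ∑ n ∈ Om K M, ∑ n' ∈ Om K M, wt K M n * wt K M n' * (if n ≡ n' [MOD q] then 1 else 0)

theorem qe_bd {K M q : ℕ} (hq : 0 < q) (hqM : q ∣ M) (hM : 0 < M) :
    0 ≤ QE K M q ∧ QE K M q ≤ K := by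
  classical
  have hq0 : (0 : ℝ) < q := by exact_mod_cast hq
  have hM0 : (M : ℝ) ≠ 0 := Nat.cast_ne_zero.2 hM.ne'
  obtain ⟨cn, hcn⟩ : ∃ cn : ℕ → ℕ, ∀ a, cn a = ((Icc 1 K).filter (fun n => n % q = a)).card :=
    ⟨_, fun a => rfl⟩
  have hin : ∀ a ∈ range q, ∑ n ∈ Om K M, wt K M n * (if n % q = a then 1 else 0) =
      (cn a : ℝ) - (K : ℝ) / q := by
    intro a ha
    rw [mem_range] at ha
    rw [wt_sum K M (fun n => if n % q = a then (1 : ℝ) else 0), hcn]
    have e1 : ∑ n ∈ Icc 1 K, (if n % q = a then (1 : ℝ) else 0) =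
        (((Icc 1 K).filter (fun n => n % q = a)).card : ℝ) := by
      rw [card_filter]
      push_cast
      rfl
    have e2 : ∑ n ∈ range M, (if n % q = a then (1 : ℝ) else 0) = (M : ℝ) / q := by
      rw [← cnt_full hq ha hqM, card_filter]
      push_cast
      rfl
    rw [e1, e2]
    field_simp
  have heq : QE K M q = ∑ a ∈ range q, ((cn a : ℝ) - (K : ℝ) / q) ^ 2 := by
    have e0 : ∑ a ∈ range q, ((cn a : ℝ) - (K : ℝ) / q) ^ 2 =
        ∑ a ∈ range q, (∑ n ∈ Om K M, wt K M n * (if n % q = a then (1 : ℝ) else 0)) ^ 2 :=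
      sum_congr rfl fun a ha => by rw [hin a ha]
    rw [e0]
    unfold QE
    have e3 : ∀ a, (∑ n ∈ Om K M, wt K M n * (if n % q = a then (1 : ℝ) else 0)) ^ 2 =
        ∑ n ∈ Om K M, ∑ n' ∈ Om K M, wt K M n * wt K M n' *
          ((if n % q = a then 1 else 0) * (if n' % q = a then 1 else 0)) := by
      intro a
      rw [pow_two, sum_mul_sum]
      refine sum_congr rfl fun n _ => sum_congr rfl fun n' _ => by ring
    rw [sum_congr rfl (fun a _ => e3 a)]
    conv_rhs => rw [sum_comm]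
    refine sum_congr rfl fun n _ => ?_
    conv_rhs => rw [sum_comm]
    refine sum_congr rfl fun n' _ => ?_
    rw [← mul_sum]
    congr 1
    have e4 : ∀ a ∈ range q, (if n % q = a then (1 : ℝ) else 0) * (if n' % q = a then 1 else 0) =
        if n % q = a then (if n' % q = n % q then (1 : ℝ) else 0) else 0 := by
      intro a _
      by_cases h : n % q = a
      · subst h
        rw [if_pos rfl, if_pos rfl, one_mul]
      · rw [if_neg h, if_neg h, zero_mul]
    rw [sum_congr rfl e4, sum_ite_eq, if_pos (mem_range.2 (Nat.mod_lt n hq))]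
    by_cases h : n ≡ n' [MOD q]
    · have h' : n' % q = n % q := h.symm
      rw [if_pos h, if_pos h']
    · have h' : ¬ n' % q = n % q := fun h' => h h'.symm
      rw [if_neg h, if_neg h']
  refine ⟨by rw [heq]; exact sum_nonneg fun a _ => sq_nonneg _, ?_⟩
  rw [heq]
  have hbd : ∀ a ∈ range q, |(cn a : ℝ) - (K : ℝ) / q| < 1 := fun a ha => by
    rw [hcn]
    exact cnt_mod hq (mem_range.1 ha)
  rcases le_or_gt q K with hqK | hqK
  · have h1 : ∀ a ∈ range q, ((cn a : ℝ) - (K : ℝ) / q) ^ 2 ≤ 1 := fun a ha => by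
      rw [← sq_abs]
      exact pow_le_one₀ (abs_nonneg _) (hbd a ha).le
    refine (sum_le_sum h1).trans ?_
    rw [sum_const, card_range, nsmul_eq_mul, mul_one]
    exact_mod_cast hqK
  · have hx : (K : ℝ) / q < 1 := by
      rw [div_lt_one hq0]
      exact_mod_cast hqK
    have h1 : ∀ a ∈ range q, ((cn a : ℝ) - (K : ℝ) / q) ^ 2 =
        (cn a : ℝ) * (1 - 2 * ((K : ℝ) / q)) + ((K : ℝ) / q) ^ 2 := by
      intro a ha
      have h2 := hbd a ha
      rw [abs_lt] at h2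
      have h3 : (cn a : ℝ) < 2 := by linarith
      have h4 : cn a < 2 := by exact_mod_cast h3
      have h5 : (cn a : ℝ) ^ 2 = cn a := by
        interval_cases (cn a) <;> norm_num
      have h6 : ((cn a : ℝ) - (K : ℝ) / q) ^ 2 =
          (cn a : ℝ) ^ 2 - 2 * cn a * ((K : ℝ) / q) + ((K : ℝ) / q) ^ 2 := by ring
      rw [h6, h5]
      ring
    rw [sum_congr rfl h1, sum_add_distrib, ← sum_mul, sum_const, card_range, nsmul_eq_mul]
    have h7 : ∑ a ∈ range q, (cn a : ℝ) = K := by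
      have h8 := card_eq_sum_card_fiberwise (s := Icc 1 K) (t := range q) (f := fun n => n % q)
        (fun n _ => mem_coe.2 (mem_range.2 (Nat.mod_lt n hq)))
      rw [Nat.card_Icc, Nat.add_sub_cancel] at h8
      have h9 : (K : ℝ) = ((∑ b ∈ range q, ((Icc 1 K).filter (fun n => n % q = b)).card : ℕ) : ℝ) := by
        exact_mod_cast h8
      rw [h9]
      push_cast
      exact sum_congr rfl fun a _ => by rw [hcn]
    rw [h7]
    have h8 : (q : ℝ) * ((K : ℝ) / q) ^ 2 = K * ((K : ℝ) / q) := by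
      field_simp
    rw [h8]
    have h9 : (0 : ℝ) ≤ K * ((K : ℝ) / q) := by positivity
    nlinarith

/-! ### the main term -/

theorem modEq_prod {W : Finset ℕ} (hW : ∀ p ∈ W, p.Prime) (n n' : ℕ) :
    (∀ p ∈ W, n ≡ n' [MOD p]) ↔ n ≡ n' [MOD ∏ p ∈ W, p] := by
  classical
  constructor
  · intro h
    rw [Nat.modEq_iff_dvd]
    push_cast
    induction W using Finset.induction_on with
    | empty => simp
    | insert p W hp ih =>
      rw [prod_insert hp]
      refine IsCoprime.mul_dvd ?_ (Nat.modEq_iff_dvd.1 (h p (mem_insert_self p W)))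
        (ih (fun a ha => hW a (mem_insert_of_mem ha)) (fun a ha => h a (mem_insert_of_mem ha)))
      refine IsCoprime.prod_right fun a ha => ?_
      rw [Int.isCoprime_iff_gcd_eq_one, Int.gcd_natCast_natCast]
      refine (Nat.coprime_primes (hW p (mem_insert_self p W)) (hW a (mem_insert_of_mem ha))).2 ?_
      rintro rfl
      exact hp ha
  · intro h p hp
    exact h.of_dvd (dvd_prod_of_mem _ hp)

/-- the main term for a pair of sets -/
noncomputable def DD (δ : ℕ → ℝ) (T T' : Finset ℕ) (n n' : ℕ) : ℝ :=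
  ∏ p ∈ T ∪ T', (if p ∈ T ∧ p ∈ T' ∧ ¬ n ≡ n' [MOD p] then δ p ^ 2 else δ p)

theorem main_pair {K M : ℕ} (hM : 0 < M) {δ : ℕ → ℝ} {T T' : Finset ℕ}
    (hpr : ∀ p ∈ T ∪ T', p.Prime) (hδ : ∀ p ∈ T ∪ T', 0 ≤ δ p ∧ δ p ≤ 1)
    (hdvd : ∏ p ∈ T ∪ T', p ∣ M) :
    |∑ n ∈ Om K M, ∑ n' ∈ Om K M, wt K M n * wt K M n' * DD δ T T' n n'| ≤
      K * ∏ p ∈ T ∪ T', δ p := by
  classical
  obtain ⟨S, hS⟩ : ∃ S, S = T ∩ T' := ⟨_, rfl⟩
  have hSU : S ⊆ T ∪ T' := by
    rw [hS]
    exact inter_subset_left.trans subset_union_left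
  obtain ⟨R, hR⟩ : ∃ R : ℝ, R = ∏ p ∈ (T ∪ T') \ S, δ p := ⟨_, rfl⟩
  have hR0 : 0 ≤ R := by
    rw [hR]
    exact prod_nonneg fun p hp => (hδ p (sdiff_subset hp)).1
  obtain ⟨cf, hcf⟩ : ∃ cf : Finset ℕ → ℝ, ∀ W, cf W =
      (∏ p ∈ W, δ p ^ 2) * ∏ p ∈ S \ W, (δ p - δ p ^ 2) := ⟨_, fun W => rfl⟩
  have hcf0 : ∀ W ∈ S.powerset, 0 ≤ cf W := by
    intro W hW
    rw [hcf]
    refine mul_nonneg (prod_nonneg fun p _ => sq_nonneg _) (prod_nonneg fun p hp => ?_)
    have h1 := hδ p (hSU (sdiff_subset hp))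
    nlinarith [h1.1, h1.2]
  have hD : ∀ n n', DD δ T T' n n' = R * ∑ W ∈ S.powerset,
      cf W * (if n ≡ n' [MOD ∏ p ∈ S \ W, p] then 1 else 0) := by
    intro n n'
    unfold DD
    rw [← prod_sdiff hSU, hR]
    congr 1
    · refine prod_congr rfl fun p hp => ?_
      rw [mem_sdiff] at hp
      rw [if_neg]
      rintro ⟨h1, h2, -⟩
      apply hp.2
      rw [hS]
      exact mem_inter.2 ⟨h1, h2⟩
    · have h1 : ∀ p ∈ S, (if p ∈ T ∧ p ∈ T' ∧ ¬ n ≡ n' [MOD p] then δ p ^ 2 else δ p) =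
          δ p ^ 2 + (δ p - δ p ^ 2) * (if n ≡ n' [MOD p] then 1 else 0) := by
        intro p hp
        rw [hS, mem_inter] at hp
        by_cases h : n ≡ n' [MOD p]
        · rw [if_neg (fun h' => h'.2.2 h), if_pos h]
          ring
        · rw [if_pos ⟨hp.1, hp.2, h⟩, if_neg h]
          ring
      rw [prod_congr rfl h1, prod_add]
      refine sum_congr rfl fun W hW => ?_
      rw [hcf, prod_mul_distrib, mul_assoc]
      congr 2
      have h2 : ∀ p ∈ S \ W, p.Prime := fun p hp => hpr p (hSU (sdiff_subset hp))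
      by_cases h : n ≡ n' [MOD ∏ p ∈ S \ W, p]
      · rw [if_pos h]
        refine prod_eq_one fun p hp => ?_
        rw [if_pos ((modEq_prod h2 n n').2 h p hp)]
      · rw [if_neg h]
        obtain ⟨p, hp, hp'⟩ : ∃ p ∈ S \ W, ¬ n ≡ n' [MOD p] := by
          by_contra h3
          push Not at h3
          exact h ((modEq_prod h2 n n').1 h3)
        refine prod_eq_zero hp ?_
        rw [if_neg hp']
  have hsum : ∑ n ∈ Om K M, ∑ n' ∈ Om K M, wt K M n * wt K M n' * DD δ T T' n n' =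
      R * ∑ W ∈ S.powerset, cf W * QE K M (∏ p ∈ S \ W, p) := by
    simp only [hD, mul_sum, QE]
    have e1 : ∀ n ∈ Om K M, ∑ n' ∈ Om K M, ∑ W ∈ S.powerset, wt K M n * wt K M n' *
        (R * (cf W * (if n ≡ n' [MOD ∏ p ∈ S \ W, p] then 1 else 0))) =
        ∑ W ∈ S.powerset, ∑ n' ∈ Om K M, wt K M n * wt K M n' *
        (R * (cf W * (if n ≡ n' [MOD ∏ p ∈ S \ W, p] then 1 else 0))) := fun n _ => sum_comm
    rw [sum_congr rfl e1, sum_comm]
    refine sum_congr rfl fun W _ => sum_congr rfl fun n _ => sum_congr rfl fun n' _ => ?_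
    ring
  have hq : ∀ W ∈ S.powerset, 0 ≤ QE K M (∏ p ∈ S \ W, p) ∧ QE K M (∏ p ∈ S \ W, p) ≤ K := by
    intro W hW
    refine qe_bd (prod_pos fun p hp => (hpr p (hSU (sdiff_subset hp))).pos) ?_ hM
    exact (prod_dvd_prod_of_subset _ _ _ (sdiff_subset.trans hSU)).trans hdvd
  rw [hsum, abs_of_nonneg (mul_nonneg hR0 (sum_nonneg fun W hW =>
    mul_nonneg (hcf0 W hW) (hq W hW).1))]
  have h1 : ∑ W ∈ S.powerset, cf W * QE K M (∏ p ∈ S \ W, p) ≤ ∑ W ∈ S.powerset, cf W * K :=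
    sum_le_sum fun W hW => mul_le_mul_of_nonneg_left (hq W hW).2 (hcf0 W hW)
  have h2 : ∑ W ∈ S.powerset, cf W = ∏ p ∈ S, δ p := by
    rw [sum_congr rfl (fun W _ => hcf W), ← prod_add]
    exact prod_congr rfl fun p _ => by ring
  calc R * ∑ W ∈ S.powerset, cf W * QE K M (∏ p ∈ S \ W, p)
      ≤ R * ∑ W ∈ S.powerset, cf W * K := mul_le_mul_of_nonneg_left h1 hR0
    _ = K * (R * ∏ p ∈ S, δ p) := by
        rw [← sum_mul, h2]
        ring
    _ = _ := by
        rw [hR, prod_sdiff hSU]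

/-- the sum over all pairs -/
theorem sum_pairs (P : Finset ℕ) (δ : ℕ → ℝ) :
    ∑ T ∈ P.powerset, ∑ T' ∈ P.powerset, ∏ p ∈ T ∪ T', δ p = ∏ p ∈ P, (1 + 3 * δ p) := by
  classical
  have h1 : ∀ T ∈ P.powerset, ∑ T' ∈ P.powerset, ∏ p ∈ T ∪ T', δ p =
      (∏ p ∈ T, 2 * δ p) * ∏ p ∈ P \ T, (1 + δ p) := by
    intro T hT
    rw [mem_powerset] at hT
    have h2 : ∀ T' ∈ P.powerset, ∏ p ∈ T ∪ T', δ p =
        (∏ p ∈ T', δ p) * ∏ p ∈ P \ T', (if p ∈ T then δ p else 1) := by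
      intro T' hT'
      rw [mem_powerset] at hT'
      rw [prod_ite_mem]
      have h3 : T ∪ T' = T' ∪ (P \ T') ∩ T := by
        ext p
        simp only [mem_union, mem_inter, mem_sdiff]
        constructor
        · rintro (h | h)
          · by_cases h' : p ∈ T'
            · exact Or.inl h'
            · exact Or.inr ⟨⟨hT h, h'⟩, h⟩
          · exact Or.inl h
        · rintro (h | h)
          · exact Or.inr h
          · exact Or.inl h.2
      rw [h3, prod_union]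
      rw [disjoint_left]
      intro p hp hp'
      exact (mem_sdiff.1 (mem_inter.1 hp').1).2 hp
    rw [sum_congr rfl h2, ← prod_add, ← prod_sdiff hT, mul_comm]
    congr 1
    · refine prod_congr rfl fun p hp => ?_
      rw [if_pos hp]
      ring
    · refine prod_congr rfl fun p hp => ?_
      rw [if_neg (mem_sdiff.1 hp).2]
      ring
  rw [sum_congr rfl h1, ← prod_add]
  exact prod_congr rfl fun p _ => by ring

theorem dk_bd (k p : ℕ) (hp : 1 ≤ p) : 0 ≤ dk k p ∧ dk k p ≤ 1 ∧ dk k p ≤ k * (1 / p) := by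
  have hp0 : (1 : ℝ) ≤ p := by exact_mod_cast hp
  have h1 : (1 : ℝ) / p ≤ 1 := by
    rw [div_le_one (by linarith)]
    exact hp0
  have h2 : 0 ≤ (1 : ℝ) / p := by positivity
  unfold dk
  refine ⟨?_, ?_, ?_⟩
  · have := pow_le_one₀ (n := k) (by linarith : (0 : ℝ) ≤ 1 - 1 / p) (by linarith)
    linarith
  · have := pow_nonneg (by linarith : (0 : ℝ) ≤ 1 - 1 / p) k
    linarith
  · have := one_add_mul_le_pow (a := -(1 / (p : ℝ))) (by linarith) k
    have e : (1 : ℝ) + -(1 / p) = 1 - 1 / p := by ring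
    rw [e] at this
    linarith

theorem prod_exp (k z : ℕ) (hz : 1 ≤ z) (b : ℕ) :
    ∏ p ∈ pz z, (1 + b * dk k p) ≤ (3 * (z : ℝ)) ^ (b * k) := by
  have hz0 : (0 : ℝ) < z := by exact_mod_cast hz
  have hp1 : ∀ p ∈ pz z, 1 ≤ p := fun p hp => by
    unfold pz at hp
    exact (mem_Icc.1 (mem_filter.1 hp).1).1
  calc ∏ p ∈ pz z, (1 + b * dk k p) ≤ ∏ p ∈ pz z, Real.exp (b * (k * (1 / p))) := by
        refine prod_le_prod (fun p hp => ?_) (fun p hp => ?_)
        · have := (dk_bd k p (hp1 p hp)).1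
          positivity
        · have h1 := (dk_bd k p (hp1 p hp)).2.2
          have h2 := Real.add_one_le_exp (b * (k * (1 / (p : ℝ))))
          have h3 := mul_le_mul_of_nonneg_left h1 (Nat.cast_nonneg (α := ℝ) b)
          linarith
    _ = Real.exp (b * (k * ∑ p ∈ pz z, 1 / (p : ℝ))) := by
        rw [← Real.exp_sum, mul_sum, mul_sum]
    _ ≤ Real.exp (b * (k * (1 + Real.log z))) := by
        apply Real.exp_le_exp.2
        exact mul_le_mul_of_nonneg_left (mul_le_mul_of_nonneg_left (sum_pz_le z)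
          (Nat.cast_nonneg _)) (Nat.cast_nonneg _)
    _ = (Real.exp 1 * z) ^ (b * k) := by
        rw [mul_pow, ← Real.exp_nat_mul, ← Real.exp_log hz0, ← Real.exp_nat_mul, ← Real.exp_add,
          Real.exp_log hz0]
        congr 1
        push_cast
        ring
    _ ≤ (3 * (z : ℝ)) ^ (b * k) := by
        refine pow_le_pow_left₀ (by positivity) ?_ _
        have h1 := Real.exp_one_lt_d9
        exact mul_le_mul_of_nonneg_right (by linarith) hz0.le

theorem geo_le (n r : ℕ) : ∑ j ∈ range (r + 1), n ^ j ≤ (n + 1) ^ r := by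
  induction r with
  | zero => simp
  | succ r ih =>
    rw [sum_range_succ]
    have h1 : n ^ (r + 1) ≤ n * (n + 1) ^ r := by
      rw [pow_succ, mul_comm]
      exact Nat.mul_le_mul_left n (Nat.pow_le_pow_left (Nat.le_succ n) r)
    calc ∑ j ∈ range (r + 1), n ^ j + n ^ (r + 1) ≤ (n + 1) ^ r + n * (n + 1) ^ r :=
          Nat.add_le_add ih h1
      _ = (n + 1) ^ (r + 1) := by ring

theorem card_small {P : Finset ℕ} {z : ℕ} (hP : P.card ≤ z) (r : ℕ) :
    (P.powerset.filter (fun T => T.card < r)).card ≤ (z + 1) ^ r := by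
  classical
  have h1 : (P.powerset.filter (fun T => T.card < r)).card =
      ∑ j ∈ range r, (P.powersetCard j).card := by
    rw [card_eq_sum_card_fiberwise (s := P.powerset.filter (fun T => T.card < r)) (t := range r)
      (f := fun T => T.card) (fun T hT => mem_coe.2 (mem_range.2 (mem_filter.1 hT).2))]
    refine sum_congr rfl fun j hj => ?_
    congr 1
    ext T
    rw [mem_filter, mem_filter, mem_powerset, mem_powersetCard]
    constructor
    · rintro ⟨⟨h2, -⟩, h3⟩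
      exact ⟨h2, h3⟩
    · rintro ⟨h2, h3⟩
      exact ⟨⟨h2, by rw [h3]; exact mem_range.1 hj⟩, h3⟩
  rw [h1]
  rcases r with _ | r
  · simp
  · calc ∑ j ∈ range (r + 1), (P.powersetCard j).card ≤ ∑ j ∈ range (r + 1), z ^ j := by
          refine sum_le_sum fun j _ => ?_
          rw [card_powersetCard]
          exact (Nat.choose_le_pow _ _).trans (Nat.pow_le_pow_left hP j)
      _ ≤ (z + 1) ^ r := geo_le z r
      _ ≤ (z + 1) ^ (r + 1) := Nat.pow_le_pow_right (Nat.succ_pos z) (Nat.le_succ r)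

theorem card_pz (z : ℕ) : (pz z).card ≤ z := by
  unfold pz
  refine (card_filter_le _ _).trans ?_
  rw [Nat.card_Icc, Nat.add_sub_cancel]

theorem sum_signs {P : Finset ℕ} (r : ℕ) (f : Finset ℕ → ℝ) :
    ∑ j ∈ range r, (-1 : ℝ) ^ j * ∑ T ∈ P.powersetCard j, f T =
      ∑ T ∈ P.powerset.filter (fun T => T.card < r), (-1) ^ T.card * f T := by
  classical
  rw [← sum_fiberwise_of_maps_to (s := P.powerset.filter (fun T => T.card < r)) (t := range r)
    (g := fun T => T.card) (fun T hT => mem_range.2 (mem_filter.1 hT).2)]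
  refine sum_congr rfl fun j hj => ?_
  rw [mul_sum]
  have h1 : (P.powerset.filter (fun T => T.card < r)).filter (fun T => T.card = j) =
      P.powersetCard j := by
    ext T
    rw [mem_filter, mem_filter, mem_powerset, mem_powersetCard]
    constructor
    · rintro ⟨⟨h2, -⟩, h3⟩
      exact ⟨h2, h3⟩
    · rintro ⟨h2, h3⟩
      exact ⟨⟨h2, by rw [h3]; exact mem_range.1 hj⟩, h3⟩
  rw [h1]
  refine sum_congr rfl fun T hT => ?_
  rw [(mem_powersetCard.1 hT).2]

theorem var (hE : S_EQD) : S_VAR := by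
  intro k s
  classical
  obtain ⟨C, hC0, hC⟩ := hE k s
  refine ⟨4 * C, by positivity, ?_⟩
  intro G H z r K hH hz hzr
  obtain ⟨P, hP⟩ : ∃ P, P = pz z := ⟨_, rfl⟩
  rw [← hP]
  have hPp : ∀ p ∈ P, p.Prime := fun p hp => by
    rw [hP] at hp
    exact (mem_filter.1 hp).2
  have hPz : ∀ p ∈ P, p ≤ z := fun p hp => by
    rw [hP] at hp
    exact (mem_Icc.1 (mem_filter.1 hp).1).2
  obtain ⟨M, hM⟩ : ∃ M, M = ∏ p ∈ P, p := ⟨_, rfl⟩
  have hMpos : 0 < M := by
    rw [hM]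
    exact prod_pos fun p hp => (hPp p hp).pos
  have hMR : (M : ℝ) = ∏ p ∈ P, (p : ℝ) := by
    rw [hM]
    push_cast
    rfl
  have hM0 : (M : ℝ) ≠ 0 := Nat.cast_ne_zero.2 hMpos.ne'
  have hH0 : (0 : ℝ) < H := by exact_mod_cast hH
  have hz0 : (0 : ℝ) < z := by exact_mod_cast hz
  obtain ⟨𝒯, h𝒯⟩ : ∃ 𝒯, 𝒯 = P.powerset.filter (fun T => T.card < r) := ⟨_, rfl⟩
  have hX : ∀ c, ∀ T ∈ 𝒯, ∑ n ∈ Icc 1 K, xi s G c T n - K * rhoT s G c T =
      ∑ n ∈ Om K M, wt K M n * xi s G c T n := by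
    intro c T hT
    rw [h𝒯, mem_filter, mem_powerset] at hT
    rw [wt_sum, hM, rho_mean s G c hPp hT.1, ← hM, ← hMR]
    have : (K : ℝ) / M * (M * rhoT s G c T) = K * rhoT s G c T := by
      field_simp
    rw [this]
  have hsq : ∀ c, (∑ j ∈ Finset.range r, (-1 : ℝ) ^ j * ∑ T ∈ P.powersetCard j,
      (∑ n ∈ Finset.Icc 1 K, xi s G c T n - K * rhoT s G c T)) ^ 2 =
      ∑ T ∈ 𝒯, ∑ T' ∈ 𝒯, ∑ n ∈ Om K M, ∑ n' ∈ Om K M,
        ((-1) ^ T.card * (-1) ^ T'.card * (wt K M n * wt K M n')) *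
          (xi s G c T n * xi s G c T' n') := by
    intro c
    rw [sum_signs, ← h𝒯, sum_congr rfl (fun T hT => by rw [hX c T hT]), pow_two, sum_mul_sum]
    refine sum_congr rfl fun T _ => sum_congr rfl fun T' _ => ?_
    have e1 : (-1 : ℝ) ^ T.card * (∑ n ∈ Om K M, wt K M n * xi s G c T n) *
        ((-1) ^ T'.card * ∑ n ∈ Om K M, wt K M n * xi s G c T' n) =
        ((-1) ^ T.card * (-1) ^ T'.card) * ((∑ n ∈ Om K M, wt K M n * xi s G c T n) *
          ∑ n ∈ Om K M, wt K M n * xi s G c T' n) := by ring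
    rw [e1, sum_mul_sum, mul_sum]
    refine sum_congr rfl fun n _ => ?_
    rw [mul_sum]
    refine sum_congr rfl fun n' _ => by ring
  rw [sum_congr rfl (fun c _ => hsq c)]
  -- exchange
  obtain ⟨N, hN⟩ : ∃ N : ℝ, N = (SB k s H).card := ⟨_, rfl⟩
  have hN0 : 0 ≤ N := by
    rw [hN]
    exact Nat.cast_nonneg _
  have hex : ∑ c ∈ SB k s H, ∑ T ∈ 𝒯, ∑ T' ∈ 𝒯, ∑ n ∈ Om K M, ∑ n' ∈ Om K M,
        ((-1) ^ T.card * (-1) ^ T'.card * (wt K M n * wt K M n')) *
          (xi s G c T n * xi s G c T' n') =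
      ∑ T ∈ 𝒯, ∑ T' ∈ 𝒯, ∑ n ∈ Om K M, ∑ n' ∈ Om K M,
        ((-1) ^ T.card * (-1) ^ T'.card * (wt K M n * wt K M n')) *
          ∑ c ∈ SB k s H, (xi s G c T n * xi s G c T' n') := by
    rw [sum_comm]
    refine sum_congr rfl fun T _ => ?_
    rw [sum_comm]
    refine sum_congr rfl fun T' _ => ?_
    rw [sum_comm]
    refine sum_congr rfl fun n _ => ?_
    rw [sum_comm]
    refine sum_congr rfl fun n' _ => ?_
    rw [mul_sum]
  rw [hex]
  obtain ⟨δ, hδ⟩ : ∃ δ : ℕ → ℝ, δ = dk k := ⟨_, rfl⟩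
  obtain ⟨er, her⟩ : ∃ er : ℝ, er = C * (((z : ℝ) + 1) ^ (2 * r) / H) * N := ⟨_, rfl⟩
  have her0 : 0 ≤ er := by
    rw [her]
    positivity
  have hTT : ∀ T ∈ 𝒯, ∀ T' ∈ 𝒯, T ∪ T' ⊆ P ∧ ∏ p ∈ T ∪ T', (p : ℝ) ≤ ((z : ℝ) + 1) ^ (2 * r) := by
    intro T hT T' hT'
    rw [h𝒯, mem_filter, mem_powerset] at hT hT'
    have h1 : T ∪ T' ⊆ P := union_subset hT.1 hT'.1
    refine ⟨h1, ?_⟩
    calc ∏ p ∈ T ∪ T', (p : ℝ) ≤ ∏ p ∈ T ∪ T', ((z : ℝ) + 1) := by
          refine prod_le_prod (fun p _ => Nat.cast_nonneg _) (fun p hp => ?_)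
          have : (p : ℝ) ≤ z := by exact_mod_cast hPz p (h1 hp)
          linarith
      _ = ((z : ℝ) + 1) ^ (T ∪ T').card := by rw [prod_const]
      _ ≤ ((z : ℝ) + 1) ^ (2 * r) := by
          refine pow_le_pow_right₀ (by linarith) ?_
          have := card_union_le T T'
          omega
  have hpt : ∀ T ∈ 𝒯, ∀ T' ∈ 𝒯, ∀ n n', |∑ c ∈ SB k s H, (xi s G c T n * xi s G c T' n') -
      N * DD δ T T' n n'| ≤ er := by
    intro T hT T' hT' n n'
    obtain ⟨h1, h2⟩ := hTT T hT T' hT'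
    have h3 := hC G H T T' n n' hH (fun p hp => hPp p (h1 hp)) (h2.trans hzr)
    rw [← hN] at h3
    have h4 : C * ((∏ p ∈ T ∪ T', (p : ℝ)) / H) * N ≤ er := by
      rw [her]
      refine mul_le_mul_of_nonneg_right (mul_le_mul_of_nonneg_left ?_ hC0) hN0
      exact div_le_div_of_nonneg_right h2 hH0.le
    refine le_trans ?_ h4
    unfold DD
    rw [hδ]
    exact h3
  -- main term and error
  have hW := wt_abs (K := K) hMpos
  have hpair : ∀ T ∈ 𝒯, ∀ T' ∈ 𝒯, ∑ n ∈ Om K M, ∑ n' ∈ Om K M,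
        ((-1) ^ T.card * (-1) ^ T'.card * (wt K M n * wt K M n')) *
          ∑ c ∈ SB k s H, (xi s G c T n * xi s G c T' n') ≤
      N * (K * ∏ p ∈ T ∪ T', δ p) + (2 * K) ^ 2 * er := by
    intro T hT T' hT'
    obtain ⟨h1, h2⟩ := hTT T hT T' hT'
    obtain ⟨ε, hε⟩ : ∃ ε : ℝ, ε = (-1) ^ T.card * (-1) ^ T'.card := ⟨_, rfl⟩
    have hε1 : |ε| = 1 := by
      rw [hε, abs_mul, abs_pow, abs_pow, abs_neg, abs_one, one_pow, one_pow, one_mul]
    rw [← hε]
    have e1 : ∑ n ∈ Om K M, ∑ n' ∈ Om K M, (ε * (wt K M n * wt K M n')) *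
          ∑ c ∈ SB k s H, (xi s G c T n * xi s G c T' n') =
        N * (ε * ∑ n ∈ Om K M, ∑ n' ∈ Om K M, wt K M n * wt K M n' * DD δ T T' n n') +
        ∑ n ∈ Om K M, ∑ n' ∈ Om K M, (ε * (wt K M n * wt K M n')) *
          (∑ c ∈ SB k s H, (xi s G c T n * xi s G c T' n') - N * DD δ T T' n n') := by
      rw [mul_sum, mul_sum, ← sum_add_distrib]
      refine sum_congr rfl fun n _ => ?_
      rw [mul_sum, mul_sum, ← sum_add_distrib]
      refine sum_congr rfl fun n' _ => ?_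
      ring
    rw [e1]
    refine add_le_add (mul_le_mul_of_nonneg_left ?_ hN0) ?_
    · refine (le_abs_self _).trans ?_
      rw [abs_mul, hε1, one_mul]
      refine main_pair hMpos (fun p hp => hPp p (h1 hp)) (fun p hp => ?_) ?_
      · rw [hδ]
        have := dk_bd k p (hPp p (h1 hp)).one_lt.le
        exact ⟨this.1, this.2.1⟩
      · rw [hM]
        exact prod_dvd_prod_of_subset _ _ _ h1
    · refine (le_abs_self _).trans ((abs_sum_le_sum_abs _ _).trans ?_)
      calc ∑ n ∈ Om K M, |∑ n' ∈ Om K M, (ε * (wt K M n * wt K M n')) *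
            (∑ c ∈ SB k s H, (xi s G c T n * xi s G c T' n') - N * DD δ T T' n n')|
          ≤ ∑ n ∈ Om K M, ∑ n' ∈ Om K M, |wt K M n| * |wt K M n'| * er := by
            refine sum_le_sum fun n _ => (abs_sum_le_sum_abs _ _).trans (sum_le_sum fun n' _ => ?_)
            rw [abs_mul, abs_mul, abs_mul, hε1, one_mul]
            exact mul_le_mul_of_nonneg_left (hpt T hT T' hT' n n')
              (mul_nonneg (abs_nonneg _) (abs_nonneg _))
        _ = (∑ n ∈ Om K M, |wt K M n|) * (∑ n ∈ Om K M, |wt K M n|) * er := by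
            rw [sum_mul_sum, sum_mul]
            exact sum_congr rfl fun n _ => by rw [sum_mul]
        _ ≤ (2 * K) * (2 * K) * er := by
            refine mul_le_mul_of_nonneg_right ?_ her0
            exact mul_le_mul hW hW (sum_nonneg fun n _ => abs_nonneg _) (by positivity)
        _ = _ := by ring
  refine (sum_le_sum fun T hT => sum_le_sum fun T' hT' => hpair T hT T' hT').trans ?_
  have hδ0 : ∀ T ⊆ P, ∀ T' ⊆ P, 0 ≤ ∏ p ∈ T ∪ T', δ p := fun T hT T' hT' =>
    prod_nonneg fun p hp => by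
      rw [hδ]
      exact (dk_bd k p (hPp p (union_subset hT hT' hp)).one_lt.le).1
  have hmain : ∑ T ∈ 𝒯, ∑ T' ∈ 𝒯, ∏ p ∈ T ∪ T', δ p ≤ (3 * (z : ℝ)) ^ (3 * k) := by
    have hsub : 𝒯 ⊆ P.powerset := by
      rw [h𝒯]
      exact filter_subset _ _
    calc ∑ T ∈ 𝒯, ∑ T' ∈ 𝒯, ∏ p ∈ T ∪ T', δ p
        ≤ ∑ T ∈ P.powerset, ∑ T' ∈ P.powerset, ∏ p ∈ T ∪ T', δ p := by
          refine (sum_le_sum fun T hT => sum_le_sum_of_subset_of_nonneg hsub
            (fun T' hT' _ => hδ0 T (mem_powerset.1 (hsub hT)) T' (mem_powerset.1 hT'))).trans ?_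
          refine sum_le_sum_of_subset_of_nonneg hsub (fun T hT _ => sum_nonneg fun T' hT' =>
            hδ0 T (mem_powerset.1 hT) T' (mem_powerset.1 hT'))
      _ = ∏ p ∈ P, (1 + 3 * δ p) := sum_pairs P δ
      _ ≤ (3 * (z : ℝ)) ^ (3 * k) := by
          rw [hδ, hP]
          have := prod_exp k z hz 3
          push_cast at this
          exact this
  have hcard : (𝒯.card : ℝ) ≤ ((z : ℝ) + 1) ^ r := by
    rw [h𝒯]
    have h1 : P.card ≤ z := by
      rw [hP]
      exact card_pz z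
    exact_mod_cast card_small h1 r
  have hsplit : ∑ T ∈ 𝒯, ∑ T' ∈ 𝒯, (N * (K * ∏ p ∈ T ∪ T', δ p) + (2 * (K : ℝ)) ^ 2 * er) =
      N * (K * ∑ T ∈ 𝒯, ∑ T' ∈ 𝒯, ∏ p ∈ T ∪ T', δ p) + (𝒯.card : ℝ) * (𝒯.card : ℝ) *
        ((2 * (K : ℝ)) ^ 2 * er) := by
    simp only [mul_sum, sum_add_distrib, sum_const, nsmul_eq_mul]
    ring
  rw [hsplit, ← hN]
  have h1 : N * (K * ∑ T ∈ 𝒯, ∑ T' ∈ 𝒯, ∏ p ∈ T ∪ T', δ p) ≤ N * (K * (3 * (z : ℝ)) ^ (3 * k)) :=
    mul_le_mul_of_nonneg_left (mul_le_mul_of_nonneg_left hmain (Nat.cast_nonneg _)) hN0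
  have h2 : (𝒯.card : ℝ) * (𝒯.card : ℝ) * ((2 * (K : ℝ)) ^ 2 * er) ≤
      ((z : ℝ) + 1) ^ r * ((z : ℝ) + 1) ^ r * ((2 * (K : ℝ)) ^ 2 * er) := by
    refine mul_le_mul_of_nonneg_right ?_ (by positivity)
    exact mul_le_mul hcard hcard (Nat.cast_nonneg _) (by positivity)
  have h3 : ((z : ℝ) + 1) ^ r * ((z : ℝ) + 1) ^ r * ((2 * (K : ℝ)) ^ 2 * er) =
      N * (4 * C * (K : ℝ) ^ 2 * (((z : ℝ) + 1) ^ (4 * r) / H)) := by
    rw [her]
    have h4 : ((z : ℝ) + 1) ^ (4 * r) = ((z : ℝ) + 1) ^ r * ((z : ℝ) + 1) ^ r *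
        ((z : ℝ) + 1) ^ (2 * r) := by
      rw [← pow_add, ← pow_add]
      congr 1
      ring
    rw [h4]
    ring
  rw [h3] at h2
  rw [mul_add]
  linarith

end Pool.Agent.Q14.CR
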